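import Pool.Agent.WR4.Stmts

/-!
WR4, row COV: covering by mixed power sums.
-/

namespace Pool.Agent.WR4.H88

open Pool.Agent.WIR Pool.Agent.WR2 Pool.Agent.WR3 Pool.Agent.WR4
open scoped BigOperators ENNReal Topology
open Filter

/-- subsets of a set with fewer than `n` elements -/
theorem few_card (S : Finset ℕ) (n : ℕ) :
    (S.powerset.filter (fun O => O.card < n)).card ≤ ∑ r ∈ Finset.range n, S.card.choose r := by
  classical
  have h1 : S.powerset.filter (fun O => O.card < n) ⊆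
      (Finset.range n).biUnion (fun r => S.powersetCard r) := by
    intro O hO
    obtain ⟨h1, h2⟩ := Finset.mem_filter.1 hO
    exact Finset.mem_biUnion.2 ⟨O.card, Finset.mem_range.2 h2,
      Finset.mem_powersetCard.2 ⟨Finset.mem_powerset.1 h1, rfl⟩⟩
  refine (Finset.card_le_card h1).trans (Finset.card_biUnion_le.trans ?_)
  refine Finset.sum_le_sum fun r _ => ?_
  rw [Finset.card_powersetCard]

/-- subsets of `{1..M}` with fewer than `n` elements in `{1..K}` -/
theorem few_cnt (M K n : ℕ) (hK : K ≤ M) :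
    ((Finset.Icc 1 M).powerset.filter (fun O => (O.filter (fun p => p ≤ K)).card < n)).card
      ≤ (∑ r ∈ Finset.range n, K.choose r) * 2 ^ (M - K) := by
  classical
  have h0 : ((Finset.Icc 1 M).powerset.filter
      (fun O => (O.filter (fun p => p ≤ K)).card < n)).card ≤
      (((Finset.Icc 1 K).powerset.filter (fun O => O.card < n)) ×ˢ
        (Finset.Icc (K + 1) M).powerset).card := by
    refine Finset.card_le_card_of_injOn
      (fun O => (O.filter (fun p => p ≤ K), O.filter (fun p => ¬ p ≤ K))) ?_ ?_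
    · intro O hO
      obtain ⟨h1, h2⟩ := Finset.mem_filter.1 (Finset.mem_coe.1 hO)
      have h1' := Finset.mem_powerset.1 h1
      refine Finset.mem_coe.2 (Finset.mem_product.2 ⟨Finset.mem_filter.2
        ⟨Finset.mem_powerset.2 ?_, h2⟩, Finset.mem_powerset.2 ?_⟩)
      · intro p hp
        obtain ⟨h3, h4⟩ := Finset.mem_filter.1 hp
        have h5 := Finset.mem_Icc.1 (h1' h3)
        exact Finset.mem_Icc.2 ⟨h5.1, h4⟩
      · intro p hp
        obtain ⟨h3, h4⟩ := Finset.mem_filter.1 hp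
        have h5 := Finset.mem_Icc.1 (h1' h3)
        exact Finset.mem_Icc.2 ⟨by omega, h5.2⟩
    · intro O _ O' _ h
      have h1 : O.filter (fun p => p ≤ K) = O'.filter (fun p => p ≤ K) := congrArg Prod.fst h
      have h2 : O.filter (fun p => ¬ p ≤ K) = O'.filter (fun p => ¬ p ≤ K) := congrArg Prod.snd h
      rw [← Finset.filter_union_filter_not_eq (fun p => p ≤ K) O,
        ← Finset.filter_union_filter_not_eq (fun p => p ≤ K) O', h1, h2]
  refine h0.trans ?_
  rw [Finset.card_product, Finset.card_powerset, Nat.card_Icc]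
  have h1 := few_card (Finset.Icc 1 K) n
  rw [Nat.card_Icc] at h1
  have e1 : K + 1 - 1 = K := by omega
  have e2 : M + 1 - (K + 1) = M - K := by omega
  rw [e1] at h1
  rw [e2]
  exact Nat.mul_le_mul_right _ h1

theorem rk_count (O : Finset ℕ) (P : ℕ → Prop) [DecidablePred P] (hP : ∀ q, P q ↔ q ∈ O) (p : ℕ) :
    rk O p = Nat.count P p := by
  rw [Nat.count_eq_card_filter_range]
  unfold rk
  congr 1
  ext q
  simp only [Finset.mem_filter, Finset.mem_range, hP]
  exact and_comm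

theorem two_inv (n : ℕ) : (2 : ZMod (3 ^ n)) * (2 : ZMod (3 ^ n))⁻¹ = 1 := by
  have h : Nat.Coprime 2 (3 ^ n) := Nat.Coprime.pow_right n (by norm_num)
  have := ZMod.coe_mul_inv_eq_one 2 h
  exact_mod_cast this

theorem three_pow {n k : ℕ} (h : n ≤ k) : (3 : ZMod (3 ^ n)) ^ k = 0 := by
  have h1 : ((3 ^ n : ℕ) : ZMod (3 ^ n)) = 0 := ZMod.natCast_self _
  obtain ⟨j, rfl⟩ := Nat.exists_eq_add_of_le h
  rw [pow_add]
  have h2 : (3 : ZMod (3 ^ n)) ^ n = 0 := by exact_mod_cast h1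
  rw [h2, zero_mul]

/-- the power sum of a set with at least `n` elements `≤ K` -/
theorem word {M K n : ℕ} {O : Finset ℕ} (hO : O ⊆ Finset.Icc 1 M)
    (hn : n ≤ (O.filter (fun p => p ≤ K)).card) :
    ∃ e : ℕ → ℕ, (∀ i : ℕ, i + 1 < n → e (i + 1) < e i) ∧ (∀ i : ℕ, i < n → e i < K) ∧
      2 ^ K * FO n O = ∑ i ∈ Finset.range n, (3 : ZMod (3 ^ n)) ^ i * 2 ^ e i := by
  classical
  obtain ⟨P, hP⟩ : ∃ P : ℕ → Prop, P = fun q => q ∈ O := ⟨_, rfl⟩
  have hfin : ({q | P q} : Set ℕ).Finite := by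
    rw [hP]
    exact O.finite_toSet
  have hcard : ∀ hf : ({q | P q} : Set ℕ).Finite, hf.toFinset.card = O.card := by
    intro hf
    congr 1
    ext q
    rw [Set.Finite.mem_toFinset, hP]
    rfl
  have hnO : n ≤ O.card := hn.trans (Finset.card_filter_le _ _)
  have hlt : ∀ i, i < n → ∀ hf : ({q | P q} : Set ℕ).Finite, i < hf.toFinset.card := by
    intro i hi hf
    rw [hcard hf]
    omega
  have hrk : ∀ p, rk O p = Nat.count P p := by
    intro p
    exact rk_count O P (fun q => by rw [hP]) p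
  have hmem : ∀ i, i < n → Nat.nth P i ∈ O := by
    intro i hi
    have := Nat.nth_mem i (hlt i hi)
    rw [hP] at this
    rw [hP]
    exact this
  have hcnt : ∀ i, i < n → Nat.count P (Nat.nth P i) = i := fun i hi => Nat.count_nth (hlt i hi)
  have hKn : n ≤ Nat.count P (K + 1) := by
    rw [Nat.count_eq_card_filter_range]
    refine hn.trans (Finset.card_le_card ?_)
    intro q hq
    obtain ⟨h1, h2⟩ := Finset.mem_filter.1 hq
    refine Finset.mem_filter.2 ⟨Finset.mem_range.2 (by omega), ?_⟩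
    rw [hP]
    exact h1
  have hle : ∀ i, i < n → Nat.nth P i ≤ K := by
    intro i hi
    by_contra hcon
    have h1 : K + 1 ≤ Nat.nth P i := by omega
    have h2 := Nat.count_monotone P h1
    rw [hcnt i hi] at h2
    omega
  have hpos : ∀ i, i < n → 1 ≤ Nat.nth P i := fun i hi => (Finset.mem_Icc.1 (hO (hmem i hi))).1
  refine ⟨fun i => K - Nat.nth P i, ?_, ?_, ?_⟩
  · intro i hi
    have h1 : Nat.nth P i < Nat.nth P (i + 1) := Nat.nth_lt_nth' (Nat.lt_succ_self i) (hlt _ hi)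
    have h2 := hle (i + 1) hi
    show K - Nat.nth P (i + 1) < K - Nat.nth P i
    omega
  · intro i hi
    have h1 := hpos i hi
    have h2 := hle i hi
    show K - Nat.nth P i < K
    omega
  · unfold FO
    rw [Finset.mul_sum, ← Finset.sum_filter_add_sum_filter_not O (fun p => rk O p < n)]
    have h0 : ∑ p ∈ O.filter (fun p => ¬ rk O p < n),
        (2 : ZMod (3 ^ n)) ^ K * (3 ^ rk O p * (2 : ZMod (3 ^ n))⁻¹ ^ p) = 0 := by
      refine Finset.sum_eq_zero fun p hp => ?_
      have h1 := (Finset.mem_filter.1 hp).2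
      push Not at h1
      rw [three_pow h1, zero_mul, mul_zero]
    rw [h0, add_zero]
    symm
    refine Finset.sum_nbij' (fun i => Nat.nth P i) (fun p => rk O p) ?_ ?_ ?_ ?_ ?_
    · intro i hi
      have hi' := Finset.mem_range.1 hi
      refine Finset.mem_filter.2 ⟨hmem i hi', ?_⟩
      rw [hrk, hcnt i hi']
      exact hi'
    · intro p hp
      exact Finset.mem_range.2 (Finset.mem_filter.1 hp).2
    · intro i hi
      rw [hrk, hcnt i (Finset.mem_range.1 hi)]
    · intro p hp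
      have h1 := (Finset.mem_filter.1 hp).1
      rw [hrk]
      refine Nat.nth_count ?_
      rw [hP]
      exact h1
    · intro i hi
      have hi' := Finset.mem_range.1 hi
      rw [hrk, hcnt i hi']
      have h1 := hle i hi'
      have h2 : (2 : ZMod (3 ^ n)) ^ K =
          2 ^ (K - Nat.nth P i) * 2 ^ Nat.nth P i := by
        rw [← pow_add]
        congr 1
        omega
      rw [h2]
      have h3 : (2 : ZMod (3 ^ n)) ^ Nat.nth P i * (2 : ZMod (3 ^ n))⁻¹ ^ Nat.nth P i = 1 := by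
        rw [← mul_pow, two_inv, one_pow]
      calc (3 : ZMod (3 ^ n)) ^ i * 2 ^ (K - Nat.nth P i)
          = 2 ^ (K - Nat.nth P i) * 3 ^ i * 1 := by ring
        _ = 2 ^ (K - Nat.nth P i) * 3 ^ i *
            (2 ^ Nat.nth P i * (2 : ZMod (3 ^ n))⁻¹ ^ Nat.nth P i) := by rw [h3]
        _ = _ := by ring

theorem exists_of_cnt (M : ℕ) (S : Set ℕ) (N : ℕ) (x : ZMod (3 ^ N)) (B : Finset (Finset ℕ))
    (h : B.card < cnt M S N x) :
    ∃ O : Finset ℕ, O ⊆ Finset.Icc 1 M ∧ O.card ∈ S ∧ FO N O = x ∧ O ∉ B := by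
  unfold cnt at h
  obtain ⟨O, hO1, hO2⟩ := Finset.exists_mem_notMem_of_card_lt_card h
  simp only [Finset.mem_filter, Finset.mem_powerset] at hO1
  exact ⟨O, hO1.1, hO1.2.1, hO1.2.2, hO2⟩

theorem cov (hSyr : SyrStmt) (hHoe : HoeStmt) : CovStmt := by
  classical
  intro c hc hS
  -- the constant
  have he : (1 : ℝ) < Real.exp (4 / 3) / 3 := by
    have h1 : (4 / 3 : ℝ) ≤ Real.exp (1 / 3) := by
      have := Real.add_one_le_exp (1 / 3 : ℝ)
      linarith
    have h2 : Real.exp (4 / 3) = Real.exp (1 / 3) ^ 4 := by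
      rw [← Real.exp_nat_mul]
      congr 1
      norm_num
    have h3 : (4 / 3 : ℝ) ^ 4 ≤ Real.exp (1 / 3) ^ 4 := pow_le_pow_left₀ (by norm_num) h1 4
    rw [h2]
    have h4 : (3 : ℝ) < (4 / 3) ^ 4 := by norm_num
    rw [lt_div_iff₀ (by norm_num)]
    linarith
  obtain ⟨n1, hn1⟩ := pow_unbounded_of_one_lt (2 / c) he
  refine ⟨max n1 1, fun n hn z hz => ?_⟩
  have hn1' : n1 ≤ n := (le_max_left _ _).trans hn
  have hnpos : 1 ≤ n := (le_max_right _ _).trans hn
  have hexp : Real.exp (-(((4 * n : ℕ) : ℝ) ^ 2 / (2 * ((6 * n : ℕ) : ℝ)))) < c / (2 * 3 ^ n) := by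
    have h1 : 2 / c < (Real.exp (4 / 3) / 3) ^ n :=
      lt_of_lt_of_le hn1 (pow_le_pow_right₀ he.le hn1')
    have hn0 : (n : ℝ) ≠ 0 := by
      have : (0 : ℝ) < n := by exact_mod_cast hnpos
      exact this.ne'
    have e1 : ((4 * n : ℕ) : ℝ) ^ 2 / (2 * ((6 * n : ℕ) : ℝ)) = n * (4 / 3) := by
      push_cast
      field_simp
      ring
    rw [e1, Real.exp_neg, Real.exp_nat_mul]
    rw [div_pow, div_lt_div_iff₀ hc (by positivity)] at h1
    rw [inv_eq_one_div, div_lt_div_iff₀ (by positivity) (by positivity)]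
    linarith
  -- the unit
  obtain ⟨z', hz'⟩ : ∃ z' : ZMod (3 ^ n), z' = (2 : ZMod (3 ^ n))⁻¹ ^ (6 * n) * z := ⟨_, rfl⟩
  have hu2 : IsUnit ((2 : ZMod (3 ^ n))⁻¹) := by
    have h := two_inv n
    rw [mul_comm] at h
    exact IsUnit.of_mul_eq_one _ h
  have hzu : IsUnit z' := by
    rw [hz']
    exact (hu2.pow _).mul hz
  have hzz : 2 ^ (6 * n) * z' = z := by
    rw [hz', ← mul_assoc, ← mul_pow, two_inv, one_pow, one_mul]
  have h3n : (0 : ℝ) < 3 ^ n := by positivity
  have hSy : c / 3 ^ n ≤ Sy n z' := by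
    rw [div_le_iff₀ h3n, mul_comm]
    exact hS n hnpos z' hzu
  have hSy2 : c / (2 * 3 ^ n) < Sy n z' := by
    refine lt_of_lt_of_le ?_ hSy
    rw [div_lt_div_iff₀ (by positivity) h3n]
    nlinarith
  obtain ⟨M, hM1, hM2⟩ := (((hSyr n z').eventually_const_lt hSy2).and
    (eventually_ge_atTop (6 * n))).exists
  have h2M : (0 : ℝ) < 2 ^ M := by positivity
  rw [lt_div_iff₀ h2M] at hM1
  -- counting
  have hfew := few_cnt M (6 * n) n hM2
  have hh := (hHoe (6 * n) ((4 * n : ℕ) : ℝ) (by omega) (by positivity)).2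
  have hsum : ∑ r ∈ Finset.range n, ((6 * n).choose r : ℝ) ≤
      2 ^ (6 * n) * Real.exp (-(((4 * n : ℕ) : ℝ) ^ 2 / (2 * ((6 * n : ℕ) : ℝ)))) := by
    refine le_trans ?_ hh
    refine Finset.sum_le_sum_of_subset_of_nonneg ?_ fun _ _ _ => Nat.cast_nonneg _
    intro r hr
    have hr' := Finset.mem_range.1 hr
    refine Finset.mem_filter.2 ⟨Finset.mem_range.2 (by omega), ?_⟩
    have : (r : ℝ) ≤ n := by exact_mod_cast hr'.le
    push_cast
    linarith
  have hlt : ((Finset.Icc 1 M).powerset.filter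
      (fun O => (O.filter (fun p => p ≤ 6 * n)).card < n)).card < cnt M (Set.Ici n) n z' := by
    have h1 : (((Finset.Icc 1 M).powerset.filter
        (fun O => (O.filter (fun p => p ≤ 6 * n)).card < n)).card : ℝ) ≤
        (∑ r ∈ Finset.range n, ((6 * n).choose r : ℝ)) * 2 ^ (M - 6 * n) := by
      exact_mod_cast hfew
    have h2 : (∑ r ∈ Finset.range n, ((6 * n).choose r : ℝ)) * 2 ^ (M - 6 * n) ≤
        (2 ^ (6 * n) * Real.exp (-(((4 * n : ℕ) : ℝ) ^ 2 / (2 * ((6 * n : ℕ) : ℝ))))) *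
          2 ^ (M - 6 * n) := mul_le_mul_of_nonneg_right hsum (by positivity)
    have h3 : (2 ^ (6 * n) * Real.exp (-(((4 * n : ℕ) : ℝ) ^ 2 / (2 * ((6 * n : ℕ) : ℝ))))) *
          2 ^ (M - 6 * n) =
        Real.exp (-(((4 * n : ℕ) : ℝ) ^ 2 / (2 * ((6 * n : ℕ) : ℝ)))) * (2 : ℝ) ^ M := by
      have e : (2 : ℝ) ^ M = 2 ^ (6 * n) * 2 ^ (M - 6 * n) := by
        rw [← pow_add]
        congr 1
        omega
      rw [e]
      ring
    have h4 := mul_lt_mul_of_pos_right hexp h2M
    have h5 : (((Finset.Icc 1 M).powerset.filter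
        (fun O => (O.filter (fun p => p ≤ 6 * n)).card < n)).card : ℝ) <
        (cnt M (Set.Ici n) n z' : ℝ) := by
      linarith
    exact_mod_cast h5
  obtain ⟨O, hO3, hO4, hO5, hO2⟩ := exists_of_cnt M _ n z' _ hlt
  have hO6 : n ≤ (O.filter (fun p => p ≤ 6 * n)).card := by
    by_contra hcon
    push Not at hcon
    exact hO2 (Finset.mem_filter.2 ⟨Finset.mem_powerset.2 hO3, hcon⟩)
  obtain ⟨e, he1, he2, he3⟩ := word hO3 hO6
  refine ⟨e, he1, he2, ?_⟩
  rw [← he3, hO5, hzz]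

end Pool.Agent.WR4.H88
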